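import Mathlib
import Pool.Agent.H.MP_681294_gt.P

set_option autoImplicit false

namespace Pool.Agent.H.MP_681294_gt

open MeasureTheory ProbabilityTheory Set
open scoped RealInnerProductSpace

/-- Prekopa-Leindler with a gain factor. -/
def PLc {X : Type} [MeasurableSpace X] (μ : Measure X) (m : X → X → X) (c : X → X → ℝ) : Prop :=
  ∀ f g h : X → ENNReal, Measurable f → Measurable g → Measurable h →
    (∀ x y, f x * g y ≤ (ENNReal.ofReal (Real.exp (c x y)) * h (m x y)) ^ 2) →
    (∫⁻ x, f x ∂μ) * ∫⁻ x, g x ∂μ ≤ (∫⁻ x, h x ∂μ) ^ 2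

section
variable {X Y : Type} [MeasurableSpace X] [MeasurableSpace Y] {μ : Measure X} {ν : Measure Y}
  {m : X → X → X} {m' : Y → Y → Y} {c : X → X → ℝ} {c' : Y → Y → ℝ}

theorem PLc.map (h : PLc μ m c) {e : X → Y} (he : MeasurePreserving e μ ν)
    (hm : ∀ x y, e (m x y) = m' (e x) (e y)) (hc : ∀ x y, c x y = c' (e x) (e y)) :
    PLc ν m' c' := fun f g k hf hg hk H => by
  rw [← he.lintegral_comp hf, ← he.lintegral_comp hg, ← he.lintegral_comp hk]
  exact h _ _ _ (hf.comp he.measurable) (hg.comp he.measurable) (hk.comp he.measurable)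
    fun x y => by rw [hm, hc]; exact H _ _

theorem PLc.prod [SFinite μ] [SFinite ν] (h : PLc μ m c) (h' : PLc ν m' c') :
    PLc (μ.prod ν) (fun x y => (m x.1 y.1, m' x.2 y.2)) fun x y => c x.1 y.1 + c' x.2 y.2 :=
  fun f g k hf hg hk H => by
  rw [lintegral_prod _ hf.aemeasurable, lintegral_prod _ hg.aemeasurable,
    lintegral_prod _ hk.aemeasurable]
  refine h _ _ _ hf.lintegral_prod_right' hg.lintegral_prod_right' hk.lintegral_prod_right'
    fun x y => ?_
  rw [← lintegral_const_mul _ (f := fun b => k (m x y, b)) (by fun_prop)]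
  refine h' _ _ _ (by fun_prop) (by fun_prop) (by fun_prop) fun a b => (H (x, a) (y, b)).trans_eq ?_
  simp only [Real.exp_add, ENNReal.ofReal_mul (Real.exp_pos _).le]
  ring

theorem PLc.pi [SigmaFinite μ] (h : PLc μ m c) (n : ℕ) :
    PLc (Measure.pi fun _ : Fin n => μ) (fun x y i => m (x i) (y i))
      fun x y => ∑ i, c (x i) (y i) := by
  induction n with
  | zero =>
    intro f g k _ _ _ H
    rw [Measure.pi_of_empty _ fun i => i.elim0, lintegral_dirac, lintegral_dirac, lintegral_dirac]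
    have := H (fun i => i.elim0) (fun i => i.elim0)
    simp only [Finset.univ_eq_empty, Finset.sum_empty, Real.exp_zero, ENNReal.ofReal_one,
      one_mul] at this
    exact this.trans_eq (by congr 2; funext i; exact i.elim0)
  | succ n ih =>
    refine (h.prod ih).map (measurePreserving_piFinSuccAbove (fun _ => μ) 0).symm
      (fun x y => ?_) fun x y => ?_
    · funext i
      refine Fin.cases rfl (fun j => rfl) i
    · rw [Fin.sum_univ_succ]; rfl
end

theorem plc_line : PLc (gaussianReal 0 1) (fun x y => (x + y) / 2) fun x y => (x - y) ^ 2 / 8 := by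
  intro f g h hf hg hh H
  have hm := measurable_gaussianPDF 0 1
  rw [gaussianReal_of_var_ne_zero _ one_ne_zero, lintegral_withDensity_eq_lintegral_mul _ hm hf,
    lintegral_withDensity_eq_lintegral_mul _ hm hg, lintegral_withDensity_eq_lintegral_mul _ hm hh]
  refine pl_line _ _ _ (hm.mul hf) (hm.mul hg) (hm.mul hh) fun x y => ?_
  have e : gaussianPDF 0 1 x * gaussianPDF 0 1 y * ENNReal.ofReal (Real.exp ((x - y) ^ 2 / 8)) ^ 2
      = gaussianPDF 0 1 ((x + y) / 2) ^ 2 := by
    simp only [gaussianPDF]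
    rw [← ENNReal.ofReal_pow (Real.exp_pos _).le, ← ENNReal.ofReal_pow (gaussianPDFReal_nonneg _ _ _),
      ← ENNReal.ofReal_mul (gaussianPDFReal_nonneg _ _ _),
      ← ENNReal.ofReal_mul (mul_nonneg (gaussianPDFReal_nonneg _ _ _) (gaussianPDFReal_nonneg _ _ _))]
    congr 1
    simp only [gaussianPDFReal, NNReal.coe_one, mul_one, sub_zero, mul_pow, ← Real.exp_nat_mul]
    rw [show ((2 : ℕ) : ℝ) * (-((x + y) / 2) ^ 2 / 2) =
      -x ^ 2 / 2 + -y ^ 2 / 2 + ((2 : ℕ) : ℝ) * ((x - y) ^ 2 / 8) by push_cast; ring,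
      Real.exp_add, Real.exp_add]
    ring
  calc (gaussianPDF 0 1 * f) x * (gaussianPDF 0 1 * g) y
      = gaussianPDF 0 1 x * gaussianPDF 0 1 y * (f x * g y) := by simp only [Pi.mul_apply]; ring
    _ ≤ gaussianPDF 0 1 x * gaussianPDF 0 1 y *
        (ENNReal.ofReal (Real.exp ((x - y) ^ 2 / 8)) * h ((x + y) / 2)) ^ 2 := by
        gcongr; exact H x y
    _ = _ := by simp only [Pi.mul_apply]; rw [mul_pow, mul_pow, ← e]; ring

/-- Euclidean space. -/
abbrev E (n : ℕ) : Type := EuclideanSpace ℝ (Fin n)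

theorem mp_toLp (n : ℕ) : MeasurePreserving (WithLp.toLp 2)
    (Measure.pi fun _ : Fin n => gaussianReal 0 1) (stdGaussian (E n)) :=
  ⟨by fun_prop, map_pi_eq_stdGaussian⟩

theorem plc_gauss (n : ℕ) : PLc (stdGaussian (E n)) (fun x y => (1 / 2 : ℝ) • (x + y))
    fun x y => ‖x - y‖ ^ 2 / 8 := by
  refine (plc_line.pi n).map (mp_toLp n) (fun x y => ?_) fun x y => ?_
  · ext i; simp; ring
  · rw [EuclideanSpace.real_norm_sq_eq, Finset.sum_div]; simp

variable {n : ℕ}

theorem gauss_gen {A B C : Set (E n)} (hA : MeasurableSet A) (hB : MeasurableSet B)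
    (hC : MeasurableSet C) {s : ℝ} (H : ∀ a ∈ A, ∀ b ∈ B, (1 / 2 : ℝ) • (a + b) ∈ C ∧
      s ≤ ‖a - b‖ ^ 2 / 8) :
    (stdGaussian (E n)).real A * (stdGaussian (E n)).real B ≤
      (Real.exp (-s) * (stdGaussian (E n)).real C) ^ 2 := by
  have := plc_gauss n (A.indicator 1) (B.indicator 1)
    (fun x => ENNReal.ofReal (Real.exp (-s)) * C.indicator 1 x)
    (measurable_one.indicator hA) (measurable_one.indicator hB)
    ((measurable_one.indicator hC).const_mul _) fun x y => by
      by_cases hx : x ∈ A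
      · by_cases hy : y ∈ B
        · obtain ⟨h1, h2⟩ := H x hx y hy
          simp only [indicator_of_mem hx, indicator_of_mem hy, indicator_of_mem h1, Pi.one_apply,
            mul_one]
          rw [← ENNReal.ofReal_mul (Real.exp_pos _).le, ← Real.exp_add]
          exact one_le_pow₀ (ENNReal.one_le_ofReal.2 (Real.one_le_exp (by linarith)))
        · simp [hy]
      · simp [hx]
  rw [lintegral_const_mul _ (measurable_one.indicator hC), lintegral_indicator_one hA,
    lintegral_indicator_one hB, lintegral_indicator_one hC] at this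
  have h2 := ENNReal.toReal_mono (by finiteness) this
  simpa [measureReal_def, ENNReal.toReal_ofReal (Real.exp_pos _).le] using h2

/-- the parametrisation by lines parallel to `e` -/
noncomputable def T (e y : E n) (t : ℝ) : E n := y + (t - ⟪e, y⟫) • e

theorem mp_T {e : E n} (he : ‖e‖ = 1) : MeasurePreserving (fun z : E n × ℝ => T e z.1 z.2)
    ((stdGaussian (E n)).prod (gaussianReal 0 1)) (stdGaussian (E n)) := by
  have hm : Measurable fun z : E n × ℝ => T e z.1 z.2 := by
    unfold T; fun_prop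
  refine ⟨hm, ?_⟩
  have := Measure.isProbabilityMeasure_map
    (μ := (stdGaussian (E n)).prod (gaussianReal 0 1)) hm.aemeasurable
  apply Measure.ext_of_charFun
  ext ξ
  rw [charFun_apply, integral_map hm.aemeasurable (by fun_prop)]
  have e1 : ∀ z : E n × ℝ, Complex.exp ((⟪T e z.1 z.2, ξ⟫ : ℝ) * Complex.I) =
      Complex.exp ((⟪z.1, ξ - ⟪e, ξ⟫ • e⟫ : ℝ) * Complex.I) *
        Complex.exp ((⟪z.2, ⟪e, ξ⟫⟫ : ℝ) * Complex.I) := fun z => by
    rw [← Complex.exp_add, ← add_mul, ← Complex.ofReal_add]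
    congr 3
    simp only [T, inner_add_left, inner_smul_left, inner_sub_right, inner_smul_right,
      real_inner_comm z.1 e, conj_trivial, RCLike.inner_apply]
    ring
  simp only [e1]
  rw [integral_prod_mul (fun y : E n => Complex.exp ((⟪y, ξ - ⟪e, ξ⟫ • e⟫ : ℝ) * Complex.I))
    (fun t : ℝ => Complex.exp ((⟪t, ⟪e, ξ⟫⟫ : ℝ) * Complex.I)), ← charFun_apply, ← charFun_apply,
    charFun_stdGaussian, charFun_stdGaussian, charFun_gaussianReal, ← Complex.exp_add]
  congr 1
  have : ‖ξ - ⟪e, ξ⟫ • e‖ ^ 2 + ⟪e, ξ⟫ ^ 2 = ‖ξ‖ ^ 2 := by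
    rw [norm_sub_sq_real, inner_smul_right, norm_smul, he, real_inner_comm e ξ]
    simp; ring
  have h2 := congrArg (fun x : ℝ => (x : ℂ)) this
  push_cast at h2 ⊢
  rw [← h2]; simp; ring

/-- Gaussian measure of the slice through `y` parallel to `e` -/
noncomputable def mm (K : Set (E n)) (e y : E n) : ℝ := (gaussianReal 0 1).real {t | T e y t ∈ K}

theorem meas_mm {K : Set (E n)} (hK : MeasurableSet K) {e : E n} (he : ‖e‖ = 1) :
    Measurable (mm K e) :=
  (measurable_measure_prodMk_left (ν := gaussianReal 0 1)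
    ((mp_T he).measurable hK)).ennreal_toReal

theorem fub {K : Set (E n)} (hK : MeasurableSet K) {e : E n} (he : ‖e‖ = 1) :
    (stdGaussian (E n)).real K = ∫ y, mm K e y ∂(stdGaussian (E n)) := by
  have h := (mp_T he).measurable hK
  rw [measureReal_def, ← (mp_T he).measure_preimage hK.nullMeasurableSet, Measure.prod_apply h,
    ← integral_toReal (measurable_measure_prodMk_left h).aemeasurable
      (Filter.Eventually.of_forall fun _ => measure_lt_top _ _)]
  rfl

theorem inner_T {e : E n} (he : ‖e‖ = 1) (y : E n) (t : ℝ) : ⟪e, T e y t⟫ = t := by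
  simp [T, inner_add_right, inner_smul_right, he]

theorem T_T {e : E n} (he : ‖e‖ = 1) (y : E n) (t s : ℝ) : T e (T e y t) s = T e y s := by
  rw [T, inner_T he, T, T, add_assoc, ← add_smul]; congr 2; ring

theorem mp_inner {e : E n} (he : ‖e‖ = 1) : MeasurePreserving (fun x : E n => ⟪e, x⟫)
    (stdGaussian (E n)) (gaussianReal 0 1) := by
  have hm : Measurable fun x : E n => ⟪e, x⟫ := by fun_prop
  refine ⟨hm, ?_⟩
  rw [← (mp_T he).map_eq, Measure.map_map hm (mp_T he).measurable]
  have : ((fun x : E n => ⟪e, x⟫) ∘ fun z : E n × ℝ => T e z.1 z.2) = Prod.snd :=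
    funext fun z => inner_T he _ _
  rw [this, Measure.map_snd_prod]; simp

theorem gauss_pos {V : Set (E n)} (hV : (interior V).Nonempty) :
    0 < (stdGaussian (E n)).real V := by
  have h1 : (gaussianReal 0 1).IsOpenPosMeasure :=
    (gaussianReal_absolutelyContinuous' 0 one_ne_zero).isOpenPosMeasure
  have h2 : (stdGaussian (E n)).IsOpenPosMeasure := by
    rw [← (mp_toLp n).map_eq]
    exact (PiLp.continuous_toLp 2 _).isOpenPosMeasure_map (WithLp.toLp_surjective 2)
  exact ENNReal.toReal_pos (Measure.measure_pos_of_nonempty_interior _ hV).ne' (measure_ne_top _ _)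

end Pool.Agent.H.MP_681294_gt
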