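import Pool.Agent.H.MP_681294_gt.A

set_option autoImplicit false

namespace Pool.Agent.H.MP_681294_gt

open MeasureTheory ProbabilityTheory Set Real

theorem pdf_bd (t : ℝ) : 1 / 3 * exp (-t ^ 2 / 2) ≤ gaussianPDFReal 0 1 t ∧
    gaussianPDFReal 0 1 t ≤ 2 / 5 * exp (-t ^ 2 / 2) := by
  have h1 : 5 / 2 ≤ √(2 * π) := Real.le_sqrt_of_sq_le (by nlinarith [pi_gt_d2])
  have h2 : √(2 * π) ≤ 3 := Real.sqrt_le_iff.2 ⟨by norm_num, by nlinarith [pi_lt_d2]⟩
  simp only [gaussianPDFReal, NNReal.coe_one, mul_one, sub_zero]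
  constructor <;> refine mul_le_mul_of_nonneg_right ?_ (exp_pos _).le
  · rw [one_div]; exact inv_anti₀ (by linarith) h2
  · rw [show (2 / 5 : ℝ) = (5 / 2)⁻¹ by norm_num]; exact inv_anti₀ (by norm_num) h1

theorem g_up {J : Set ℝ} (hJ : MeasurableSet J) {u v b : ℝ} (huv : u ≤ v) (h : J ⊆ Icc u v)
    (hb : ∀ t ∈ J, b ≤ t ^ 2) : (gaussianReal 0 1).real J ≤ 2 / 5 * exp (-b / 2) * (v - u) := by
  rw [measureReal_def, gaussianReal_apply _ one_ne_zero]
  refine ENNReal.toReal_le_of_le_ofReal (by have := sub_nonneg.2 huv; positivity) ?_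
  calc _ ≤ ∫⁻ _ in J, ENNReal.ofReal (2 / 5 * exp (-b / 2)) := setLIntegral_mono' hJ fun t ht =>
        ENNReal.ofReal_le_ofReal ((pdf_bd t).2.trans (by gcongr; exact hb t ht))
    _ ≤ _ := by
        rw [setLIntegral_const, ENNReal.ofReal_mul (q := v - u) (by positivity), ← Real.volume_Icc]
        gcongr

theorem g_lo {u v b : ℝ} (_ : u ≤ v) (hb : ∀ t ∈ Ioo u v, t ^ 2 ≤ b) :
    1 / 3 * exp (-b / 2) * (v - u) ≤ (gaussianReal 0 1).real (Ioo u v) := by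
  rw [measureReal_def, ← ENNReal.ofReal_le_iff_le_toReal (measure_ne_top _ _),
    gaussianReal_apply _ one_ne_zero, ENNReal.ofReal_mul (by positivity), ← Real.volume_Ioo,
    ← setLIntegral_const]
  exact setLIntegral_mono' measurableSet_Ioo fun t ht =>
    ENNReal.ofReal_le_ofReal (le_trans (by gcongr; exact hb t ht) (pdf_bd t).1)

theorem g_tail {a : ℝ} (ha : 0 ≤ a) :
    (gaussianReal 0 1).real {t | a ≤ |t|} ≤ 2 * exp (-a ^ 2 / 2) := by
  have h1 := measure_ge_le_exp_mul_mgf (μ := gaussianReal 0 1) (X := id) a ha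
    (integrable_exp_mul_gaussianReal a)
  have h2 := measure_le_le_exp_mul_mgf (μ := gaussianReal 0 1) (X := id) (-a) (neg_nonpos.2 ha)
    (integrable_exp_mul_gaussianReal (-a))
  rw [mgf_id_gaussianReal, ← exp_add] at h1 h2
  have e : {t : ℝ | a ≤ |t|} = {t | a ≤ id t} ∪ {t | id t ≤ -a} := by
    ext t; simp [le_abs, le_neg]
  rw [e]
  refine (measureReal_union_le _ _).trans ?_
  have e1 : -a * a + (0 * a + ((1 : NNReal) : ℝ) * a ^ 2 / 2) = -a ^ 2 / 2 := by simp; ring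
  have e2 : - -a * -a + (0 * -a + ((1 : NNReal) : ℝ) * (-a) ^ 2 / 2) = -a ^ 2 / 2 := by simp; ring
  rw [e1] at h1; rw [e2] at h2; linarith

theorem cvx : ConvexOn ℝ (Ici 1) fun s : ℝ => exp (-s ^ 2 / 2) := by
  have d1 : ∀ s : ℝ, HasDerivAt (fun s : ℝ => exp (-s ^ 2 / 2)) (-s * exp (-s ^ 2 / 2)) s := fun s =>
    (((hasDerivAt_pow 2 s).neg.div_const 2).exp).congr_deriv (by simp; ring)
  have d2 : ∀ s : ℝ, HasDerivAt (fun s : ℝ => -s * exp (-s ^ 2 / 2))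
      ((s ^ 2 - 1) * exp (-s ^ 2 / 2)) s := fun s =>
    ((hasDerivAt_id s).neg.mul (d1 s)).congr_deriv (by simp; ring)
  refine convexOn_of_hasDerivWithinAt2_nonneg (convex_Ici 1) (by fun_prop)
    (fun s _ => (d1 s).hasDerivWithinAt) (fun s _ => (d2 s).hasDerivWithinAt) fun s hs => ?_
  have : 1 ≤ s := interior_subset hs
  exact mul_nonneg (by nlinarith) (exp_pos _).le

/-- `J` contains an interval whose position and length fit the level `l`. -/
def InA (δ l : ℝ) (J : Set ℝ) : Prop :=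
  ∃ x s : ℝ, 1 ≤ s ∧ x ^ 2 + s ^ 2 ≤ l ^ 2 ∧ x - δ * exp (-s ^ 2 / 2) ∈ J ∧
    x + δ * exp (-s ^ 2 / 2) ∈ J

theorem F_le {δ : ℝ} (h0 : 0 < δ) (s : ℝ) : δ * exp (-s ^ 2 / 2) ≤ δ :=
  mul_le_of_le_one_right h0.le (exp_le_one_iff.2 (by nlinarith [sq_nonneg s]))

variable {J J' : Set ℝ} {δ l : ℝ}

theorem in_lo (hc : J.OrdConnected) (h0 : 0 < δ) (h1 : δ ≤ 1) (hl : 0 ≤ l) (h : InA δ l J) :
    δ / 3 * exp (-l ^ 2 / 2 - δ * l) ≤ (gaussianReal 0 1).real J := by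
  obtain ⟨x, s, hs, hx, ha, hb⟩ := h
  have hF := F_le h0 s
  have F0 : 0 < δ * exp (-s ^ 2 / 2) := by positivity
  have hxl : |x| ≤ l := abs_le_of_sq_le_sq' (by nlinarith) hl |> abs_le.2
  refine le_trans ?_ ((g_lo (b := x ^ 2 + 2 * δ * l + 1) (by linarith) fun t ht => ?_).trans
    (measureReal_mono (Ioo_subset_Icc_self.trans (hc.out ha hb))))
  · have e : exp (-(x ^ 2 + 2 * δ * l + 1) / 2) * exp (-s ^ 2 / 2) =
        exp (-(x ^ 2 + s ^ 2) / 2 - δ * l) * exp (-(1 / 2)) := by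
      rw [← exp_add, ← exp_add]; congr 1; ring
    have h2 : 1 / 2 ≤ exp (-(1 / 2)) := by linarith [add_one_le_exp (-(1 / 2) : ℝ)]
    have h3 : exp (-l ^ 2 / 2 - δ * l) ≤ exp (-(x ^ 2 + s ^ 2) / 2 - δ * l) := by
      gcongr
    calc _ = 2 * δ / 3 * (exp (-l ^ 2 / 2 - δ * l) * (1 / 2)) := by ring
      _ ≤ 2 * δ / 3 * (exp (-(x ^ 2 + s ^ 2) / 2 - δ * l) * exp (-(1 / 2))) := by gcongr
      _ = _ := by rw [← e]; ring
  · have : |t - x| ≤ δ := abs_le.2 ⟨by linarith [ht.1], by linarith [ht.2]⟩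
    have h2 : |t| ≤ |x| + δ := by
      have := abs_add_le x (t - x); simp only [add_sub_cancel] at this; linarith
    have h3 : t ^ 2 ≤ (|x| + δ) ^ 2 := by rw [← sq_abs t]; gcongr
    nlinarith [sq_abs x, abs_nonneg x]

theorem in_up (hJ : IsClosed J) (hc : J.OrdConnected) (h0 : 0 < δ) (h1 : δ ≤ 1) (hl : 0 ≤ l)
    (h : ¬InA δ l J) : (gaussianReal 0 1).real J ≤ 6 * exp (-l ^ 2 / 2 + δ * l) := by
  rcases J.eq_empty_or_nonempty with rfl | hne
  · simp; positivity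
  obtain ⟨t0, ht0, hmin⟩ := hJ.exists_infDist_eq_dist hne 0
  have hm : ∀ t ∈ J, |t0| ≤ |t| := fun t ht => by
    have := Metric.infDist_le_dist_of_mem (x := (0 : ℝ)) ht
    rw [hmin] at this; simpa using this
  have a0 := abs_nonneg t0
  rcases le_or_gt ((|t0| + δ) ^ 2 + 1) (l ^ 2) with hA | hB
  · set s := √(l ^ 2 - (|t0| + δ) ^ 2) with hs
    have s2 : s ^ 2 = l ^ 2 - (|t0| + δ) ^ 2 := sq_sqrt (by linarith)
    have s1 : 1 ≤ s := Real.le_sqrt_of_sq_le (by linarith)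
    have hF := F_le h0 s
    set F := δ * exp (-s ^ 2 / 2) with hFd
    have F0 : 0 < F := by positivity
    have k : ∀ x, |x - t0| ≤ F → x ^ 2 + s ^ 2 ≤ l ^ 2 := fun x hx => by
      have := abs_add_le t0 (x - t0)
      simp only [add_sub_cancel] at this
      have h3 : x ^ 2 ≤ (|t0| + δ) ^ 2 := by rw [← sq_abs x]; gcongr; linarith
      linarith
    have hsub : J ⊆ Icc (t0 - 2 * F) (t0 + 2 * F) := fun t ht => by
      constructor <;> by_contra! hh
      · exact h ⟨t0 - F, s, s1, k _ (by simp [abs_of_pos F0]),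
          hc.out ht ht0 ⟨by linarith, by linarith⟩, by simpa [← hFd] using ht0⟩
      · exact h ⟨t0 + F, s, s1, k _ (by simp [abs_of_pos F0]), by simpa [← hFd] using ht0,
          hc.out ht0 ht ⟨by linarith, by linarith⟩⟩
    refine (g_up hJ.measurableSet (b := t0 ^ 2) (by linarith) hsub fun t ht => ?_).trans ?_
    · exact sq_le_sq.2 (hm t ht)
    have hal : |t0| + δ ≤ l := abs_le_of_sq_le_sq' (by nlinarith) hl |>.2
    have h3 : exp (-t0 ^ 2 / 2) * exp (-s ^ 2 / 2) ≤ exp (-l ^ 2 / 2 + δ * l) := by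
      rw [← exp_add]; exact exp_le_exp.2 (by nlinarith [sq_abs t0])
    calc _ = 8 / 5 * δ * (exp (-t0 ^ 2 / 2) * exp (-s ^ 2 / 2)) := by rw [hFd]; ring
      _ ≤ 6 * exp (-l ^ 2 / 2 + δ * l) := by gcongr; linarith
  · refine (measureReal_mono (fun t ht => hm t ht)).trans ((g_tail a0).trans ?_)
    have h3 : exp (-|t0| ^ 2 / 2) ≤ exp (-l ^ 2 / 2 + δ * l) * exp 1 := by
      rw [← exp_add]; gcongr
      rcases le_total |t0| l with h | h <;> nlinarith
    have h4 : exp 1 ≤ 3 := by linarith [exp_one_lt_d9]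
    nlinarith [exp_pos (-l ^ 2 / 2 + δ * l)]

theorem in_gain (hJ : IsClosed J) (hc : J.OrdConnected) (h0 : 0 < δ) (h1 : δ ≤ 1) {l' r : ℝ}
    (hl : 1 ≤ l) (hl' : 1 ≤ l') (h : ¬InA δ l J) (h' : InA δ l' J) (r0 : 0 ≤ r) (r1 : r ≤ 1)
    (hs : ∀ t ∈ J, ∀ s, |s| ≤ r → t + s ∈ J') : (gaussianReal 0 1).real J +
      1 / 3 * exp (-(l' + 1) ^ 2 / 2) * r ≤ (gaussianReal 0 1).real J' := by
  obtain ⟨x, s, -, hx, ha, hb⟩ := h'
  have F0 : 0 < δ * exp (-s ^ 2 / 2) := by positivity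
  have hxJ : x ∈ J := hc.out ha hb ⟨by linarith, by linarith⟩
  have hxl := abs_le_of_sq_le_sq' (a := x) (b := l') (by nlinarith) (by linarith)
  obtain ⟨q, hq, hqJ⟩ : ∃ q, |q| ≤ 1 ∧ q ∉ J := by
    by_contra! hh
    have hF := F_le h0 1
    have F1 : 0 < δ * exp (-1 ^ 2 / 2) := by positivity
    exact h ⟨0, 1, le_rfl, by nlinarith, hh _ (abs_le.2 ⟨by linarith, by linarith⟩),
      hh _ (abs_le.2 ⟨by linarith, by linarith⟩)⟩
  rw [abs_le] at hq
  have key : ∀ u, |u| ≤ l' + 1 → |u + r| ≤ l' + 1 → Disjoint J (Ioo u (u + r)) →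
      Ioo u (u + r) ⊆ J' → (gaussianReal 0 1).real J +
      1 / 3 * exp (-(l' + 1) ^ 2 / 2) * r ≤ (gaussianReal 0 1).real J' := fun u u1 u2 hd hu => by
    have := g_lo (u := u) (v := u + r) (b := (l' + 1) ^ 2) (by linarith) fun t ht => by
      rw [abs_le] at u1 u2
      exact sq_le_sq' (by linarith [ht.1]) (by linarith [ht.2])
    have h2 := measureReal_mono (μ := gaussianReal 0 1)
      (union_subset (fun t ht => by simpa using hs t ht 0 (by simpa)) hu)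
    rw [measureReal_union hd measurableSet_Ioo] at h2
    simp only [add_sub_cancel_left] at this
    linarith
  rcases le_total x q with hxq | hxq
  · have hb : q ∈ upperBounds J := fun t ht => by
      by_contra! hh; exact hqJ (hc.out hxJ ht ⟨hxq, hh.le⟩)
    have b1 := hJ.csSup_mem ⟨x, hxJ⟩ ⟨q, hb⟩
    have b2 := le_csSup ⟨q, hb⟩ hxJ
    have b3 := csSup_le ⟨x, hxJ⟩ hb
    refine key (sSup J) (abs_le.2 ⟨by linarith, by linarith⟩) (abs_le.2 ⟨by linarith, by linarith⟩)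
      (disjoint_left.2 fun t ht h2 => (le_csSup ⟨q, hb⟩ ht).not_gt h2.1) fun t ht => ?_
    simpa using hs _ b1 (t - sSup J) (abs_le.2 ⟨by linarith [ht.1], by linarith [ht.2]⟩)
  · have hb : q ∈ lowerBounds J := fun t ht => by
      by_contra! hh; exact hqJ (hc.out ht hxJ ⟨hh.le, hxq⟩)
    have b1 := hJ.csInf_mem ⟨x, hxJ⟩ ⟨q, hb⟩
    have b2 := csInf_le ⟨q, hb⟩ hxJ
    have b3 := le_csInf ⟨x, hxJ⟩ hb
    refine key (sInf J - r) (abs_le.2 ⟨by linarith, by linarith⟩)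
      (abs_le.2 ⟨by linarith, by linarith⟩)
      (disjoint_left.2 fun t ht h2 => (csInf_le ⟨q, hb⟩ ht).not_gt (by linarith [h2.2]))
      fun t ht => ?_
    simpa using hs _ b1 (t - sInf J) (abs_le.2 ⟨by linarith [ht.1], by linarith [ht.2]⟩)

theorem long (hJ : IsClosed J) (hc : J.OrdConnected) {r t : ℝ} (r0 : 0 < r) (ht : t ∈ J)
    (h : 2 * r ≤ (gaussianReal 0 1).real J) : t + 2 * r ∈ J ∨ t - 2 * r ∈ J := by
  by_contra! hh
  have := g_up hJ.measurableSet (u := t - 2 * r) (v := t + 2 * r) (b := 0) (by linarith)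
    (fun s hs => ⟨by by_contra! h2; exact hh.2 (hc.out hs ht ⟨h2.le, by linarith⟩),
      by by_contra! h2; exact hh.1 (hc.out ht hs ⟨by linarith, h2.le⟩)⟩) fun s _ => sq_nonneg s
  simp at this; linarith

end Pool.Agent.H.MP_681294_gt
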