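import Pool.Agent.H.MP_681294_gt.B

set_option autoImplicit false

namespace Pool.Agent.H.MP_681294_gt

open MeasureTheory ProbabilityTheory Set Real Filter Topology
open scoped Pointwise

theorem seq (G L U : ℕ → ℝ) {g r : ℝ} {N J : ℕ} (hg : 0 < g) (hG0 : g ≤ G 0) (mono : Monotone G)
    (le1 : ∀ j, G j ≤ 1) (lc : ∀ j, G j * G (j + 2) ≤ G (j + 1) ^ 2) (hNJ : N ≤ J)
    (hL : ∀ j, L j ≤ L (j + 1) + (G (j + 1) - G j) * min r (U j)) (hLU : ∀ j, L j ≤ U j)
    (hU : ∀ i, U (J + 4 + i) ≤ r * (1 / 2) ^ (i + 1)) (r0 : 0 ≤ r) :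
    N * g * L J ≤ 5 * r * (G N - G 0) := by
  have gl : ∀ j, g ≤ G j := fun j => hG0.trans (mono j.zero_le)
  have Gp : ∀ j, 0 < G j := fun j => hg.trans_le (gl j)
  have anti : Antitone fun j => G (j + 1) / G j := antitone_nat_of_succ_le fun j => by
    rw [div_le_div_iff₀ (Gp _) (Gp _)]; nlinarith [lc j]
  have r1 : ∀ j, 1 ≤ G (j + 1) / G j := fun j => (one_le_div (Gp j)).2 (mono j.le_succ)
  have D : ∀ j, G (j + 1) - G j = G j * (G (j + 1) / G j - 1) := fun j => by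
    field_simp [(Gp j).ne']
  obtain ⟨σ, hσ⟩ : ∃ σ, σ = G (N + 1) / G N - 1 := ⟨_, rfl⟩
  have s0 : 0 ≤ σ := by linarith [r1 N]
  have D1 : ∀ j, N ≤ j → G (j + 1) - G j ≤ σ := fun j hj => by
    have : G (j + 1) / G j ≤ G (N + 1) / G N := anti hj
    rw [D]; nlinarith [le1 j, r1 j]
  have D2 : ∀ k, k ≤ N → k * g * σ ≤ G k - G 0 := fun k hk => by
    induction k with
    | zero => simp
    | succ k ih =>
      have h1 : G (N + 1) / G N ≤ G (k + 1) / G k := anti (by omega)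
      have h2 := ih (by omega)
      have h3 : g * σ ≤ G k * (G (k + 1) / G k - 1) :=
        mul_le_mul (gl k) (by linarith) s0 (Gp k).le
      rw [← D] at h3; push_cast; linarith
  have step : ∀ j c, N ≤ j → 0 ≤ c → min r (U j) ≤ c → L j ≤ L (j + 1) + σ * c :=
    fun j c hj c0 hc => (hL j).trans (by
      have h1 := mul_le_mul_of_nonneg_left hc (sub_nonneg.2 (mono j.le_succ))
      have h2 := mul_le_mul_of_nonneg_right (D1 j hj) c0
      simp only [Nat.succ_eq_add_one] at h1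
      linarith)
  have t1 : ∀ i, L (J + 4) ≤ σ * r * (1 - (1 / 2) ^ i) + L (J + 4 + i) := fun i => by
    induction i with
    | zero => simp
    | succ i ih =>
      have := step (J + 4 + i) _ (by omega) (by positivity) ((min_le_right _ _).trans (hU i))
      rw [← add_assoc, pow_succ] at *; linarith
  have t2 : L (J + 4) ≤ σ * r + r * 0 := by
    refine ge_of_tendsto' ((tendsto_pow_atTop_nhds_zero_of_lt_one (r := (1 / 2 : ℝ))
      (by norm_num) (by norm_num)).const_mul r |>.const_add (σ * r)) fun i => ?_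
    have h1 := (hLU _).trans (hU i)
    have h2 : 0 ≤ r * (1 / 2) ^ i := by positivity
    have h3 := mul_nonneg s0 h2
    have h4 := t1 i
    rw [pow_succ] at h1; nlinarith
  have t3 : L J ≤ 5 * r * σ := by
    have a0 := step J r hNJ r0 (min_le_left _ _)
    have a1 := step (J + 1) r (by omega) r0 (min_le_left _ _)
    have a2 := step (J + 2) r (by omega) r0 (min_le_left _ _)
    have a3 := step (J + 3) r (by omega) r0 (min_le_left _ _)
    simp only [add_assoc, Nat.reduceAdd] at a1 a2 a3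
    linarith
  have := D2 N le_rfl
  calc N * g * L J ≤ N * g * (5 * r * σ) := by gcongr
    _ = 5 * r * (N * g * σ) := by ring
    _ ≤ _ := by gcongr

variable {n : ℕ} {K : Set (E n)} {e : E n} {δ : ℝ}

theorem sl_closed (hK : IsClosed K) (e y : E n) : IsClosed {t | T e y t ∈ K} :=
  hK.preimage (f := T e y) (by unfold T; fun_prop)

theorem T_comb (e y z : E n) (s t a b : ℝ) :
    T e (a • y + b • z) (a * s + b * t) = a • T e y s + b • T e z t := by
  simp only [T, inner_add_right, inner_smul_right]; module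

theorem sl_conn (hK : Convex ℝ K) (e y : E n) : OrdConnected {t | T e y t ∈ K} :=
  Convex.ordConnected fun s hs t ht a b ha hb h => by
    have := hK hs ht ha hb h
    rwa [← T_comb e y y s t a b, ← add_smul, h, one_smul] at this

/-- level sets -/
def AS (K : Set (E n)) (e : E n) (δ l : ℝ) : Set (E n) := {y | InA δ l {t | T e y t ∈ K}}

theorem AS_closed (hK : IsClosed K) (e : E n) (δ l : ℝ) : IsClosed (AS K e δ l) := by
  let C : Set (ℝ × ℝ) := {z | 1 ≤ z.2 ∧ z.1 ^ 2 + z.2 ^ 2 ≤ l ^ 2}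
  have hC : IsCompact C := ((isCompact_Icc (a := -|l|) (b := |l|)).prod
    (isCompact_Icc (a := -|l|) (b := |l|))).of_isClosed_subset
    (IsClosed.and (isClosed_le (by fun_prop) (by fun_prop))
      (isClosed_le (by fun_prop) (by fun_prop)))
    fun z hz => ⟨abs_le.1 (sq_le_sq.1 (by nlinarith [hz.2])), abs_le.1 (sq_le_sq.1 (by nlinarith [hz.2]))⟩
  have := isCompact_iff_compactSpace.1 hC
  have h := isClosedMap_fst_of_compactSpace (X := E n) (Y := C)
    {w | T e w.1 (w.2.1.1 - δ * exp (-w.2.1.2 ^ 2 / 2)) ∈ K ∧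
      T e w.1 (w.2.1.1 + δ * exp (-w.2.1.2 ^ 2 / 2)) ∈ K}
    ((hK.preimage (by unfold T; fun_prop)).inter (hK.preimage (by unfold T; fun_prop)))
  have e1 : AS K e δ l = Prod.fst '' {w : E n × C |
      T e w.1 (w.2.1.1 - δ * exp (-w.2.1.2 ^ 2 / 2)) ∈ K ∧
      T e w.1 (w.2.1.1 + δ * exp (-w.2.1.2 ^ 2 / 2)) ∈ K} := by
    ext y
    exact ⟨fun ⟨x, s, h1, h2, h3⟩ => ⟨(y, ⟨(x, s), h1, h2⟩), h3, rfl⟩,
      fun ⟨w, h1, h2⟩ => h2 ▸ ⟨_, _, w.2.2.1, w.2.2.2, h1⟩⟩
  rwa [e1]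

theorem AS_mono {l l' : ℝ} (h0 : 0 ≤ l) (h : l ≤ l') : AS K e δ l ⊆ AS K e δ l' :=
  fun _ ⟨x, s, h1, h2, h3⟩ => ⟨x, s, h1, h2.trans (by gcongr), h3⟩

theorem AS_mid (hK : Convex ℝ K) (hδ : 0 < δ) {l l' : ℝ} (h0 : 0 ≤ l) (h0' : 0 ≤ l') {y z : E n}
    (hy : y ∈ AS K e δ l) (hz : z ∈ AS K e δ l') :
    (1 / 2 : ℝ) • (y + z) ∈ AS K e δ ((l + l') / 2) := by
  obtain ⟨x, s, s1, h1, h2, h3⟩ := hy
  obtain ⟨x', s', s1', h1', h2', h3'⟩ := hz
  have a := hK h2 h2' (a := 1 / 2) (b := 1 / 2) (by norm_num) (by norm_num) (by norm_num)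
  have b := hK h3 h3' (a := 1 / 2) (b := 1 / 2) (by norm_num) (by norm_num) (by norm_num)
  rw [← T_comb, ← smul_add] at a b
  have c := cvx.2 s1 s1' (show (0 : ℝ) ≤ 1 / 2 by norm_num) (show (0 : ℝ) ≤ 1 / 2 by norm_num)
    (by norm_num)
  simp only [smul_eq_mul] at c
  have c2 := mul_le_mul_of_nonneg_left c hδ.le
  have c3 : 0 < δ * exp (-(1 / 2 * s + 1 / 2 * s') ^ 2 / 2) := by positivity
  have cs : x * x' + s * s' ≤ l * l' := abs_le_of_sq_le_sq' (by
    have := mul_le_mul h1 h1' (by positivity) (by positivity)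
    nlinarith [sq_nonneg (x * s' - s * x')]) (by positivity) |>.2
  exact ⟨(x + x') / 2, 1 / 2 * s + 1 / 2 * s', by linarith, by nlinarith,
    (sl_conn hK _ _).out a b ⟨by linarith, by linarith⟩,
    (sl_conn hK _ _).out a b ⟨by linarith, by linarith⟩⟩

/-- the part of the thickening over long slices -/
def Kp (K : Set (E n)) (e : E n) (r : ℝ) : Set (E n) :=
  (K + segment ℝ (-(r • e)) (r • e)) ∩ {x | 2 * r ≤ mm K e x}

theorem seg_mem (u : E n) {s : ℝ} (h : |s| ≤ 1) : s • u ∈ segment ℝ (-u) u :=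
  ⟨(1 - s) / 2, (1 + s) / 2, by linarith [abs_le.1 h], by linarith [abs_le.1 h], by ring, by module⟩

theorem mem_seg {u x : E n} (h : x ∈ segment ℝ (-u) u) : ∃ s : ℝ, |s| ≤ 1 ∧ x = s • u := by
  obtain ⟨a, b, ha, hb, h, rfl⟩ := h
  exact ⟨b - a, abs_le.2 ⟨by linarith, by linarith⟩, by module⟩

theorem seg_compact (u v : E n) : IsCompact (segment ℝ u v) := by
  rw [segment_eq_image]; exact isCompact_Icc.image (by fun_prop)

theorem Kp_meas (hK : IsClosed K) (he : ‖e‖ = 1) (r : ℝ) : MeasurableSet (Kp K e r) :=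
  (hK.add_right_of_isCompact (seg_compact _ _)).measurableSet.inter
    (measurableSet_le measurable_const (meas_mm hK.measurableSet he))

theorem Kp_sl (he : ‖e‖ = 1) {r : ℝ} (r0 : 0 < r) {y : E n} (hy : 2 * r ≤ mm K e y) (t : ℝ)
    (ht : T e y t ∈ K) (s : ℝ) (hs : |s| ≤ r) : T e y (t + s) ∈ Kp K e r := by
  refine ⟨⟨_, ht, _, seg_mem (r • e) (s := s / r) ?_, ?_⟩, ?_⟩
  · rw [abs_div, abs_of_pos r0]; exact (div_le_one r0).2 hs
  · simp only [T, smul_smul, div_mul_cancel₀ _ r0.ne']; module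
  · simpa only [mm, mem_ofPred_eq, T_T he] using hy

theorem int_mm (hK : MeasurableSet K) (he : ‖e‖ = 1) :
    Integrable (mm K e) (stdGaussian (E n)) :=
  .of_bound (meas_mm hK he).aestronglyMeasurable 1 (.of_forall fun _ => by
    rw [mm, Real.norm_of_nonneg measureReal_nonneg]; exact measureReal_le_one)

theorem num {δ a r : ℝ} (h0 : 0 < δ) (h1 : δ ≤ 1) (ha : 72 ≤ a * δ * δ)
    (hr : δ / 3 * exp (-a ^ 2 / 2 - δ * a) < r) (i : ℕ) :
    6 * exp (-(a + (i + 3) * δ) ^ 2 / 2 + δ * (a + (i + 3) * δ)) ≤ r * (1 / 2) ^ (i + 1) := by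
  have p0 : 0 < a * δ := by nlinarith
  have q : exp (-(a * δ)) ≤ δ / 72 := by
    rw [exp_neg, inv_le_iff_one_le_mul₀ (exp_pos _)]
    nlinarith [add_one_le_exp (a * δ)]
  have h2 : exp (1 / 2 : ℝ) ≤ 2 := by
    have := exp_one_lt_d9
    have h : exp (1 / 2 : ℝ) ^ 2 = exp 1 := by rw [← exp_nat_mul]; norm_num
    nlinarith [exp_pos (1 / 2 : ℝ)]
  have h3 : exp (-(a + (i + 3) * δ) ^ 2 / 2 + δ * (a + (i + 3) * δ)) ≤
      exp (-a ^ 2 / 2 - δ * a) * (exp (1 / 2) * (exp (-(a * δ)) * exp (-(a * δ)) ^ i)) := by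
    rw [← exp_nat_mul, ← exp_add, ← exp_add, ← exp_add]
    exact exp_le_exp.2 (by nlinarith [sq_nonneg ((i + 2) * δ)])
  have h4 : exp (-(a * δ)) ^ i ≤ (1 / 2) ^ i := by gcongr; linarith
  calc _ ≤ 6 * (exp (-a ^ 2 / 2 - δ * a) * (2 * (δ / 72 * (1 / 2) ^ i))) := by
        refine mul_le_mul_of_nonneg_left (h3.trans ?_) (by norm_num); gcongr
    _ = δ / 3 * exp (-a ^ 2 / 2 - δ * a) * (1 / 2) ^ (i + 1) := by ring
    _ ≤ _ := by gcongr

end Pool.Agent.H.MP_681294_gt
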