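import Pool.Agent.H.MP_681294_gt.C

set_option autoImplicit false

namespace Pool.Agent.H.MP_681294_gt

open MeasureTheory ProbabilityTheory Set Real Filter Topology
open scoped Pointwise

theorem bdry {P : ℕ → Prop} {a b : ℕ} (ha : P a) (hb : ∀ k, b ≤ k → ¬P k) :
    ∃ j, a ≤ j ∧ P j ∧ ¬P (j + 1) := by
  by_contra! h
  have : ∀ k, P (a + k) := fun k => by
    induction k with
    | zero => exact ha
    | succ k ih => exact h _ (Nat.le_add_right a k) ih
  exact hb _ (by omega) (this b)

theorem mainM {p : ℝ} (hp : 0 < p) : ∃ r0, 0 < r0 ∧ ∀ (n : ℕ) (K : Set (E n)), IsClosed K →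
    Convex ℝ K → p ≤ (stdGaussian (E n)).real K → ∀ e : E n, ‖e‖ = 1 → ∀ r, 0 < r → r ≤ r0 →
    (stdGaussian (E n)).real K ≤ (stdGaussian (E n)).real (Kp K e r) := by
  obtain ⟨l0, hl0⟩ : ∃ l0, l0 = 2 + 12 / p := ⟨_, rfl⟩
  have l2 : 2 < l0 := by rw [hl0]; have : 0 < 12 / p := by positivity
                         linarith
  obtain ⟨κ, hκ⟩ : ∃ κ, κ = 1 / 3 * exp (-(l0 + 1 + 1) ^ 2 / 2) := ⟨_, rfl⟩
  have k0 : 0 < κ := by rw [hκ]; positivity
  obtain ⟨N, hN⟩ := exists_nat_ge (20 / (κ * p) + 1)
  have N1 : (1 : ℝ) ≤ N := by have : 0 < 20 / (κ * p) := by positivity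
                              linarith
  have N2 : 20 ≤ N * (κ * p) := (div_le_iff₀ (by positivity)).1 (by linarith)
  obtain ⟨δ, hδ⟩ : ∃ δ : ℝ, δ = 1 / N := ⟨_, rfl⟩
  have d0 : 0 < δ := by rw [hδ]; positivity
  have dN : N * δ = 1 := by rw [hδ]; field_simp
  have d1 : δ ≤ 1 := by nlinarith
  obtain ⟨l, hl⟩ : ∃ l : ℕ → ℝ, ∀ j, l j = l0 + j * δ := ⟨_, fun _ => rfl⟩
  have lp : ∀ j, 2 < l j := fun j => by rw [hl]; have : 0 ≤ j * δ := by positivity
                                        linarith
  have lm : Monotone l := fun i j h => by rw [hl, hl]; gcongr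
  obtain ⟨Lo, hLo⟩ : ∃ Lo : ℕ → ℝ, ∀ j, Lo j = δ / 3 * exp (-l j ^ 2 / 2 - δ * l j) :=
    ⟨_, fun _ => rfl⟩
  have Lo1 : ∀ j, Lo j ≤ exp (-l j) := fun j => by
    rw [hLo]
    exact (mul_le_of_le_one_left (exp_pos _).le (by linarith)).trans
      (exp_le_exp.2 (by nlinarith [lp j]))
  refine ⟨Lo (72 * N ^ 3) / 2, by rw [hLo]; positivity, fun n K hK hc hpK e he r r0 hr => ?_⟩
  have r1 : r ≤ 1 := by
    linarith [(Lo1 (72 * N ^ 3)).trans (exp_le_one_iff.2 (by linarith [lp (72 * N ^ 3)]))]
  obtain ⟨J, hJ, hJ1, hJ2⟩ := bdry (P := fun j => 2 * r ≤ Lo j) (a := 72 * N ^ 3)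
    (b := ⌈1 / (r * δ)⌉₊) (by linarith) fun k hk h => by
      have h1 : 1 ≤ k * (r * δ) := (div_le_iff₀ (by positivity)).1 (Nat.ceil_le.1 hk)
      have h2 := h.trans (Lo1 k)
      rw [exp_neg, le_inv_comm₀ (by positivity) (exp_pos _), inv_eq_one_div,
        le_div_iff₀ (by positivity)] at h2
      have := add_one_le_exp (l k)
      rw [hl] at this h2; nlinarith
  have hNJ : N ≤ J := le_trans (by
    have : 1 ≤ N := by exact_mod_cast N1
    nlinarith [Nat.one_le_pow 2 N this]) hJ
  set γ := stdGaussian (E n)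
  obtain ⟨A, hA⟩ : ∃ A : ℕ → Set (E n), ∀ j, A j = AS K e δ (l j) := ⟨_, fun _ => rfl⟩
  have Am : ∀ j, MeasurableSet (A j) := fun j => hA j ▸ (AS_closed hK _ _ _).measurableSet
  have Amo : Monotone A := fun i j h => by
    rw [hA, hA]; exact AS_mono (by linarith [lp i]) (lm h)
  have up : ∀ j y, y ∉ A j → mm K e y ≤ 6 * exp (-l j ^ 2 / 2 + δ * l j) := fun j y hy =>
    in_up (sl_closed hK _ _) (sl_conn hc _ _) d0 d1 (by linarith [lp j])
      (show y ∉ AS K e δ (l j) from hA j ▸ hy)
  have iK := int_mm hK.measurableSet he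
  have iM : ∀ j, Integrable ((A j)ᶜ.indicator fun y => min (2 * r) (mm K e y)) γ := fun j =>
    ((integrable_const _).inf iK).indicator (Am j).compl
  have iC : ∀ (S : Set (E n)) (c : ℝ), MeasurableSet S → Integrable (S.indicator fun _ => c) γ :=
    fun S c h => (integrable_const c).indicator h
  have m0 : ∀ S y, 0 ≤ mm S e y := fun _ _ => measureReal_nonneg
  have main := seq (fun j => γ.real (A j))
    (fun j => ∫ y, (A j)ᶜ.indicator (fun y => min (2 * r) (mm K e y)) y ∂γ)
    (fun j => 6 * exp (-l j ^ 2 / 2 + δ * l j)) (g := p / 2) (r := 2 * r) (N := N) (J := J)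
    (by positivity) ?_ (fun i j h => measureReal_mono (Amo h)) (fun _ => measureReal_le_one)
    (fun j => ?_) hNJ (fun j => ?_) (fun j => ?_) (fun i => ?_) (by positivity)
  · have h1 := integral_mono (μ := γ) (iK.add (iC (A N \ A 0) (κ * r) ((Am _).diff (Am _))))
      ((int_mm (Kp_meas hK he r) he).add (iM J)) fun y => by
        have sub : 2 * r ≤ mm K e y → mm K e y ≤ mm (Kp K e r) e y := fun h =>
          measureReal_mono fun t ht => by simpa using Kp_sl he r0 h t ht 0 (by simpa using r0.le)
        simp only [Pi.add_apply]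
        by_cases hy : y ∈ A J
        · have h2 : 2 * r ≤ mm K e y := hJ1.trans (hLo J ▸ in_lo (sl_conn hc _ _) d0 d1
            (by linarith [lp J]) (show y ∈ AS K e δ (l J) from hA J ▸ hy))
          rw [indicator_of_notMem (notMem_compl_iff.2 hy), add_zero]
          by_cases hy2 : y ∈ A N \ A 0
          · rw [indicator_of_mem hy2, hκ]
            have h3 := hy2.1
            rw [hA, hl, dN] at h3
            exact in_gain (sl_closed hK _ _) (sl_conn hc _ _) d0 d1 (l := l 0) (by linarith [lp 0])
              (by linarith) (show y ∉ AS K e δ (l 0) from hA 0 ▸ hy2.2) h3 r0.le r1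
              (Kp_sl he r0 h2)
          · rw [indicator_of_notMem hy2, add_zero]; exact sub h2
        · rw [indicator_of_notMem (s := A N \ A 0) fun h => hy (Amo hNJ h.1),
            indicator_of_mem (mem_compl hy), add_zero]
          rcases le_total (2 * r) (mm K e y) with h | h
          · linarith [sub h, min_eq_left h]
          · linarith [m0 (Kp K e r) y, min_eq_right h]
    simp only [Pi.add_apply] at h1
    rw [integral_add iK (iC _ _ ((Am _).diff (Am _))),
      integral_add (int_mm (Kp_meas hK he r) he) (iM J), ← fub hK.measurableSet he,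
      ← fub (Kp_meas hK he r) he, integral_indicator_const _ ((Am _).diff (Am _)),
      measureReal_sdiff (Amo N.zero_le) (Am _), smul_eq_mul] at h1
    have h4 : 0 ≤ r * (γ.real (A N) - γ.real (A 0)) :=
      mul_nonneg r0.le (sub_nonneg.2 (measureReal_mono (Amo N.zero_le)))
    have h5 : N * (p / 2) * ∫ y, (A J)ᶜ.indicator (fun y => min (2 * r) (mm K e y)) y ∂γ ≤
        N * (p / 2) * (κ * (r * (γ.real (A N) - γ.real (A 0)))) := by nlinarith
    linarith [le_of_mul_le_mul_left h5 (by positivity)]
  · have h1 := integral_mono (μ := γ) iK ((iC (A 0) 1 (Am _)).add (integrable_const (p / 2)))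
      fun y => by
        simp only [Pi.add_apply]
        by_cases hy : y ∈ A 0
        · rw [indicator_of_mem hy]
          exact measureReal_le_one.trans (by linarith)
        · rw [indicator_of_notMem hy, zero_add]
          refine (up 0 y hy).trans ?_
          have h2 : exp (-l 0 ^ 2 / 2 + δ * l 0) ≤ exp (-(12 / p)) := by
            rw [hl]; exact exp_le_exp.2 (by simp only [Nat.cast_zero]; nlinarith)
          have h3 : exp (-(12 / p)) ≤ p / 12 := by
            rw [exp_neg, ← inv_div 12 p]
            exact inv_anti₀ (by positivity) (by linarith [add_one_le_exp (12 / p)])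
          linarith
    simp only [Pi.add_apply] at h1
    rw [integral_add (iC _ _ (Am _)) (integrable_const _), ← fub hK.measurableSet he,
      integral_indicator_const _ (Am _)] at h1
    simp at h1; linarith
  · simpa using gauss_gen (Am j) (Am (j + 2)) (Am (j + 1)) (s := 0) fun a ha b hb =>
      ⟨by
        have := AS_mid hc d0 (by linarith [lp j]) (by linarith [lp (j + 2)]) (hA j ▸ ha)
          (hA (j + 2) ▸ hb)
        rwa [show (l j + l (j + 2)) / 2 = l (j + 1) by simp only [hl]; push_cast; ring,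
          ← hA] at this, by positivity⟩
  · have h1 := integral_mono (μ := γ) (iM j) ((iM (j + 1)).add (iC (A (j + 1) \ A j)
      (min (2 * r) (6 * exp (-l j ^ 2 / 2 + δ * l j))) ((Am _).diff (Am _)))) fun y => by
        simp only [Pi.add_apply]
        by_cases hy : y ∈ A (j + 1)
        · rw [indicator_of_notMem (notMem_compl_iff.2 hy), zero_add]
          by_cases h2 : y ∈ A j
          · rw [indicator_of_notMem (notMem_compl_iff.2 h2), indicator_of_notMem fun h => h.2 h2]
          · rw [indicator_of_mem h2, indicator_of_mem (mem_sdiff_of_mem hy h2)]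
            exact min_le_min_left _ (up j y h2)
        · rw [indicator_of_mem (mem_compl hy),
            indicator_of_notMem (s := A (j + 1) \ A j) fun h => hy h.1,
            indicator_of_mem (show y ∈ (A j)ᶜ from fun h => hy (Amo j.le_succ h)), add_zero]
    simp only [Pi.add_apply] at h1
    rwa [integral_add (iM _) (iC _ _ ((Am _).diff (Am _))),
      integral_indicator_const _ ((Am _).diff (Am _)),
      measureReal_sdiff (Amo j.le_succ) (Am _), smul_eq_mul] at h1
  · have h1 := integral_mono (μ := γ) (iM j) (integrable_const (6 * exp (-l j ^ 2 / 2 + δ * l j)))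
      fun y => by
        by_cases hy : y ∈ A j
        · rw [indicator_of_notMem (notMem_compl_iff.2 hy)]; positivity
        · rw [indicator_of_mem hy]; exact (min_le_right _ _).trans (up j y hy)
    simpa using h1
  · have h1 : ((72 * N ^ 3 : ℕ) : ℝ) ≤ J := by exact_mod_cast hJ
    have := num d0 d1 (a := l (J + 1)) (r := 2 * r) (by
      have h2 : 72 * N ^ 3 * δ ≤ l (J + 1) := by rw [hl]; push_cast at h1 ⊢; nlinarith
      calc 72 = 72 * (N * δ) ^ 3 := by rw [dN]; ring
        _ = 72 * N ^ 3 * δ * δ * δ := by ring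
        _ ≤ _ := by gcongr) (hLo _ ▸ not_le.1 hJ2) i
    rwa [show l (J + 1) + (i + 3) * δ = l (J + 4 + i) by simp only [hl]; push_cast; ring] at this

end Pool.Agent.H.MP_681294_gt
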