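import Pool.Agent.H.MP_681294_gt.D

set_option autoImplicit false

namespace Pool.Agent.H.MP_681294_gt

open MeasureTheory ProbabilityTheory Set Real Filter Topology
open scoped Pointwise RealInnerProductSpace

variable {n : ℕ}

theorem unit_dir {u : E n} (u0 : u ≠ 0) : ∃ e : E n, ‖e‖ = 1 ∧ u = ‖u‖ • e :=
  ⟨‖u‖⁻¹ • u, by rw [norm_smul, norm_inv, norm_norm, inv_mul_cancel₀ (norm_ne_zero_iff.2 u0)],
    by rw [smul_smul, mul_inv_cancel₀ (norm_ne_zero_iff.2 u0), one_smul]⟩

theorem zero_mem {K : Set (E n)} (hK : IsClosed K) (hc : Convex ℝ K)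
    (h : 1 / 2 < (stdGaussian (E n)).real K) : (0 : E n) ∈ K := by
  by_contra h0
  have hm : MeasurePreserving (fun x : E n => -x) (stdGaussian (E n)) (stdGaussian (E n)) :=
    ⟨measurable_neg, stdGaussian_map (LinearIsometryEquiv.neg ℝ)⟩
  have h1 := hm.measureReal_preimage hK.measurableSet.nullMeasurableSet
  have h2 := measureReal_union (μ := stdGaussian (E n)) (s₁ := K) (s₂ := (fun x => -x) ⁻¹' K)
    (disjoint_left.2 fun x hx hx' => h0 (by
      simpa using hc hx hx' (a := 1 / 2) (b := 1 / 2) (by norm_num) (by norm_num) (by norm_num)))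
    (hm.measurable hK.measurableSet)
  linarith [measureReal_le_one (μ := stdGaussian (E n)) (s := K ∪ (fun x => -x) ⁻¹' K)]

theorem bana : ∃ r0, 0 < r0 ∧ ∀ (n k : ℕ) (u : Fin k → E n), (∀ i, ‖u i‖ ≤ r0) →
    ∀ K : Set (E n), IsClosed K → Convex ℝ K → 3 / 4 ≤ (stdGaussian (E n)).real K →
    ∃ ε : Fin k → ℝ, (∀ i, ε i = 1 ∨ ε i = -1) ∧ ∑ i, ε i • u i ∈ K := by
  obtain ⟨r0, h0, h⟩ := mainM (p := 3 / 4) (by norm_num)
  refine ⟨r0, h0, fun n k => ?_⟩
  induction k with
  | zero =>
    exact fun u _ K hK hc hp => ⟨0, fun i => i.elim0, by simpa using zero_mem hK hc (by linarith)⟩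
  | succ k ih =>
    intro u hu K hK hc hp
    obtain ⟨v, hv⟩ : ∃ v, v = u 0 := ⟨_, rfl⟩
    let K0 : Set (E n) := {x | x - v ∈ K} ∩ {x | x + v ∈ K}
    have c0 : Convex ℝ K0 := fun x hx y hy a b ha hb hab => by
      obtain rfl : b = 1 - a := by linarith
      exact ⟨by have := hc hx.1 hy.1 ha hb hab
                rwa [show a • (x - v) + (1 - a) • (y - v) = a • x + (1 - a) • y - v by module] at this,
        by have := hc hx.2 hy.2 ha hb hab
           rwa [show a • (x + v) + (1 - a) • (y + v) = a • x + (1 - a) • y + v by module] at this⟩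
    have k0 : IsClosed K0 := (hK.preimage (f := fun x => x - v) (by fun_prop)).inter
      (hK.preimage (f := fun x => x + v) (by fun_prop))
    refine (ih (fun i => u i.succ) (fun i => hu _)
      (K0 + segment ℝ (-((2 : ℝ) • v)) ((2 : ℝ) • v)) (k0.add_right_of_isCompact (seg_compact _ _))
      (c0.add (convex_segment _ _)) (hp.trans ?_)).elim fun ε ⟨hε, x, hx, w, hw, hS⟩ => ?_
    swap
    · obtain ⟨s, hs, rfl⟩ := mem_seg hw
      rw [abs_le] at hs
      simp only at hS
      rcases le_total s 0 with h1 | h1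
      · refine ⟨Fin.cons 1 ε, fun i => Fin.cases (.inl rfl) hε i, ?_⟩
        have := hc hx.1 hx.2 (a := -s) (b := 1 + s) (by linarith) (by linarith) (by ring)
        rw [Fin.sum_univ_succ]
        simp only [Fin.cons_zero, Fin.cons_succ, ← hS, ← hv]
        rwa [show (1 : ℝ) • v + (x + s • (2 : ℝ) • v) = -s • (x - v) + (1 + s) • (x + v) by module]
      · refine ⟨Fin.cons (-1) ε, fun i => Fin.cases (.inr rfl) hε i, ?_⟩
        have := hc hx.1 hx.2 (a := 1 - s) (b := s) (by linarith) (by linarith) (by ring)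
        rw [Fin.sum_univ_succ]
        simp only [Fin.cons_zero, Fin.cons_succ, ← hS, ← hv]
        rwa [show (-1 : ℝ) • v + (x + s • (2 : ℝ) • v) = (1 - s) • (x - v) + s • (x + v) by module]
    by_cases v0 : v = 0
    · exact measureReal_mono fun x hx => ⟨x, by simp [K0, v0, hx], 0, by simp [v0], add_zero x⟩
    obtain ⟨e, he, hve⟩ := unit_dir v0
    have r0 := norm_pos_iff.2 v0
    refine (h n K hK hc hp e he _ r0 (hv ▸ hu 0)).trans (measureReal_mono fun x hx => ?_)
    obtain ⟨⟨y, hy, w, hw, rfl⟩, h2⟩ := hx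
    rw [← hve] at hw
    obtain ⟨s, hs, rfl⟩ := mem_seg hw
    have e1 : ∀ t : ℝ, T e (y + s • v) (⟪e, y⟫ + t * ‖v‖) = y + t • v := fun t => by
      have : ⟪e, v⟫ = ‖v‖ := by rw [hve, inner_smul_right, norm_smul]; simp [he]
      rw [T, inner_add_right, inner_smul_right, this]
      generalize ‖v‖ = r at hve
      rw [hve]; module
    rw [abs_le] at hs
    rcases long (sl_closed hK e (y + s • v)) (sl_conn hc _ _) r0 (t := ⟪e, y⟫)
      (by have := e1 0
          rw [zero_mul, add_zero, zero_smul, add_zero] at this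
          rwa [mem_ofPred_eq, this]) h2 with h3 | h3
    · rw [mem_ofPred_eq, e1] at h3
      exact ⟨y + v, ⟨by simpa using hy, by simpa [two_smul, add_assoc] using h3⟩, _,
        seg_mem _ (s := (s - 1) / 2) (abs_le.2 ⟨by linarith, by linarith⟩), by
          simp only; module⟩
    · rw [mem_ofPred_eq, sub_eq_add_neg, ← neg_mul, e1] at h3
      exact ⟨y - v, ⟨by simpa [two_smul, sub_eq_add_neg, add_assoc] using h3, by simpa using hy⟩, _,
        seg_mem _ (s := (s + 1) / 2) (abs_le.2 ⟨by linarith, by linarith⟩), by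
          simp only; module⟩

variable {W : Set (E n)} {z : E n}

theorem int_inner (e : E n) : Integrable (fun x : E n => ⟪e, x⟫) (stdGaussian (E n)) :=
  IsGaussian.integrable_id.const_inner e

theorem bar_inner (hz : ∫ x in W, x ∂stdGaussian (E n) = (stdGaussian (E n)).real W • z) (e : E n) :
    ∫ x in W, ⟪e, x⟫ ∂stdGaussian (E n) = (stdGaussian (E n)).real W * ⟪e, z⟫ := by
  rw [integral_inner IsGaussian.integrable_fun_id.integrableOn, hz, inner_smul_right]

theorem ball_sub (hW : IsClosed W) (hc : Convex ℝ W) (q0 : 0 < (stdGaussian (E n)).real W)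
    (hz : ∫ x in W, x ∂stdGaussian (E n) = (stdGaussian (E n)).real W • z) (x : E n)
    (hx : ‖x - z‖ ≤ (stdGaussian (E n)).real W / 4) : x ∈ W := by
  by_contra hxW
  have hne : W.Nonempty := nonempty_iff_ne_empty.2 fun h => by simp [h] at q0
  obtain ⟨v, hv, hm⟩ := exists_norm_eq_iInf_of_complete_convex hne hW.isComplete hc x
  rw [norm_eq_iInf_iff_real_inner_le_zero hc hv] at hm
  have v0 : x - v ≠ 0 := sub_ne_zero.2 fun h => hxW (h ▸ hv)
  obtain ⟨e, he, hve⟩ := unit_dir v0
  have r0 := norm_pos_iff.2 v0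
  have k : ∀ w ∈ W, ⟪e, w⟫ ≤ ⟪e, x⟫ := fun w hw => by
    have h1 := hm w hw
    have h2 : ⟪e, x - v⟫ = ‖x - v‖ := by rw [hve, inner_smul_right, norm_smul]; simp [he]
    rw [hve, real_inner_smul_left, inner_sub_right] at h1
    rw [inner_sub_right] at h2
    nlinarith
  set q := (stdGaussian (E n)).real W
  let S := (fun w : E n => ⟪e, w⟫) ⁻¹' Icc (⟪e, x⟫ - q) ⟪e, x⟫
  have mS : MeasurableSet S := (mp_inner he).measurable measurableSet_Icc
  have hS : (stdGaussian (E n)).real S ≤ 2 / 5 * q := by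
    rw [(mp_inner he).measureReal_preimage measurableSet_Icc.nullMeasurableSet]
    simpa using g_up measurableSet_Icc (u := ⟪e, x⟫ - q) (v := ⟪e, x⟫) (b := 0) (by linarith)
      subset_rfl fun t _ => sq_nonneg t
  have i1 : Integrable (S.indicator fun _ => q) (stdGaussian (E n)) :=
    (integrable_const q).indicator mS
  have h1 := setIntegral_mono_on (μ := stdGaussian (E n)) (f := fun w => ⟪e, w⟫ + (q - ⟪e, x⟫))
    ((int_inner e).add (integrable_const _)).integrableOn i1.integrableOn hW.measurableSet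
    fun w hw => by
      by_cases h : w ∈ S
      · rw [indicator_of_mem h]; linarith [k w hw]
      · rw [indicator_of_notMem h]
        by_contra! h2
        exact h ⟨by linarith, k w hw⟩
  have h2 := setIntegral_le_integral (s := W) i1
    (.of_forall fun w => indicator_nonneg (fun _ _ => q0.le) w)
  rw [integral_add (int_inner e).integrableOn (integrable_const _), bar_inner hz,
    setIntegral_const, smul_eq_mul] at h1
  rw [integral_indicator_const (μ := stdGaussian (E n)) _ mS, smul_eq_mul] at h2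
  have h3 : ⟪e, x - z⟫ ≤ q / 4 := (real_inner_le_norm _ _).trans (by rwa [he, one_mul])
  rw [inner_sub_right] at h3
  have h4 : q * ⟪e, z⟫ + q * (q - ⟪e, x⟫) ≤ _ := h1.trans h2
  nlinarith

theorem bar_norm (hz : ∫ x in W, x ∂stdGaussian (E n) = (stdGaussian (E n)).real W • z) :
    (stdGaussian (E n)).real W * ‖z‖ ≤ ∫ t, |t| ∂gaussianReal 0 1 := by
  by_cases z0 : z = 0
  · simpa [z0] using integral_nonneg fun t => abs_nonneg t
  obtain ⟨e, he, hve⟩ := unit_dir z0
  have h2 : ⟪e, z⟫ = ‖z‖ := by rw [hve, inner_smul_right, norm_smul]; simp [he]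
  rw [← h2, ← bar_inner hz, ← (mp_inner he).map_eq,
    integral_map (mp_inner he).measurable.aemeasurable (by fun_prop)]
  exact (integral_mono (int_inner e).integrableOn (int_inner e).abs.integrableOn
    fun x => le_abs_self _).trans (setIntegral_le_integral (int_inner e).abs
      (.of_forall fun x => abs_nonneg _))

theorem core : ∃ g : ℝ → ℝ, AntitoneOn g (Ioi 0) ∧ (∀ p, 0 < p → 0 < g p) ∧
    ∀ (n : ℕ) (W : Set (E n)) (z : E n), IsClosed W → Convex ℝ W →
      0 < (stdGaussian (E n)).real W →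
      ∫ x in W, x ∂stdGaussian (E n) = (stdGaussian (E n)).real W • z →
      ∀ u : Fin n → E n, (∀ i, ‖u i‖ ≤ 1) → ∃ ε : Fin n → ℝ, (∀ i, ε i = 1 ∨ ε i = -1) ∧
        z + (g ((stdGaussian (E n)).real W))⁻¹ • ∑ i, ε i • u i ∈ W := by
  obtain ⟨r0, h0, h⟩ := bana
  obtain ⟨C, hC⟩ : ∃ C, C = ∫ t, |t| ∂gaussianReal 0 1 := ⟨_, rfl⟩
  have C0 : 0 ≤ C := hC ▸ integral_nonneg fun t => abs_nonneg t
  refine ⟨fun p => (1 + 4 * (4 + C) / p ^ 2) / r0, fun p hp q _ hq => ?_, fun p hp => by positivity,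
    fun n W z hW hc q0 hz u hu => ?_⟩
  · have : 0 < p := hp
    simp only; gcongr
  have hb := ball_sub hW hc q0 hz
  have hn := hC ▸ bar_norm hz
  have q1 : (stdGaussian (E n)).real W ≤ 1 := measureReal_le_one
  obtain ⟨a, ha⟩ : ∃ a, a = 4 * (4 + C) / (stdGaussian (E n)).real W ^ 2 := ⟨_, rfl⟩
  have a0 : 0 < a := by rw [ha]; positivity
  let K : Set (E n) := {x | z + (1 + a)⁻¹ • x ∈ W}
  have kK : IsClosed K := hW.preimage (f := fun x => z + (1 + a)⁻¹ • x) (by fun_prop)
  have conc := gauss_gen hW.measurableSet kK.measurableSet.compl .univ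
    (s := 2 / (stdGaussian (E n)).real W ^ 2) fun w hw b hb' => ⟨trivial, by
      set q := (stdGaussian (E n)).real W
      by_contra! hh
      have h1 : ‖w - b‖ ≤ 4 / q := abs_le_of_sq_le_sq' (by
        rw [div_pow, show 4 ^ 2 / q ^ 2 = 8 * (2 / q ^ 2) by ring]; linarith) (by positivity) |>.2
      have h2 := hb (z + a⁻¹ • (z - (w - b))) (by
        rw [add_sub_cancel_left, norm_smul, norm_inv, Real.norm_of_nonneg a0.le,
          inv_mul_le_iff₀ a0]
        refine (norm_sub_le _ _).trans ?_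
        have : ‖z‖ ≤ C / q := by rw [le_div_iff₀ q0]; linarith
        rw [show a * (q / 4) = C / q + 4 / q by rw [ha]; field_simp; ring]
        linarith)
      have h3 := hc hw h2 (a := (1 + a)⁻¹) (b := a * (1 + a)⁻¹) (by positivity) (by positivity)
        (by field_simp)
      refine hb' ?_
      show _ ∈ W
      rwa [show z + (1 + a)⁻¹ • b = (1 + a)⁻¹ • w + (a * (1 + a)⁻¹) • (z + a⁻¹ • (z - (w - b))) by
        match_scalars <;> field_simp <;> ring]⟩
  obtain ⟨ε, hε, hs⟩ := h n n (fun i => r0 • u i) (fun i => by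
      rw [norm_smul, Real.norm_of_nonneg h0.le]; exact mul_le_of_le_one_right h0.le (hu i)) K kK
    (fun x hx y hy s t hs ht hst => by
      obtain rfl : t = 1 - s := by linarith
      have := hc hx hy hs ht hst
      show _ ∈ W
      rwa [show z + (1 + a)⁻¹ • (s • x + (1 - s) • y) =
        s • (z + (1 + a)⁻¹ • x) + (1 - s) • (z + (1 + a)⁻¹ • y) by module]) (by
      rw [probReal_compl_eq_one_sub kK.measurableSet, probReal_univ, mul_one, ← exp_nat_mul] at conc
      set q := (stdGaussian (E n)).real W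
      have h1 : exp ((2 : ℕ) * -(2 / q ^ 2)) ≤ q ^ 2 / 4 := by
        rw [show ((2 : ℕ) : ℝ) * -(2 / q ^ 2) = -(4 / q ^ 2) by push_cast; ring, exp_neg,
          ← inv_div 4]
        exact inv_anti₀ (by positivity) (by linarith [add_one_le_exp (4 / q ^ 2)])
      nlinarith)
  refine ⟨ε, hε, ?_⟩
  simp only [← ha, smul_comm _ r0, ← Finset.smul_sum] at hs ⊢
  rwa [inv_div, div_eq_inv_mul, mul_smul]

end Pool.Agent.H.MP_681294_gt
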